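import Mathlib

/-!
# MP_8835a9_co, Q1 is false: no uniform bound `N + K` for irreducible solutions of `(E_N)`

For `M = 30 K + 1`, `N = 5 M`, the alternating tuple `(2, M+2, 2, M+2, …)` of size `6 M = N + M`
is an irreducible solution of `(E_N)`.
-/

set_option linter.unusedSectionVars false

namespace Pool.Agent.Results.MP_8835a9_co.NoUniformBound

open Matrix

section Defs

variable {R : Type} [CommRing R]

/-- The elementary matrix attached to an entry. -/
def E (a : R) : Matrix (Fin 2) (Fin 2) R := !![a, -1; 1, 0]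

/-- `M_n(a_1, …, a_n) = E(a_n) E(a_{n-1}) ⋯ E(a_1)`; tuples are lists `[a_1, …, a_n]`. -/
def Mat : List R → Matrix (Fin 2) (Fin 2) R
  | [] => 1
  | a :: l => Mat l * E a

/-- A solution: `M_n(a_1, …, a_n) = ± Id`. -/
def IsSolution (l : List R) : Prop := Mat l = 1 ∨ Mat l = -1

/-- `IsSum x y z` says that `z = x ⊕ y` for
`x = (a_1, …, a_n)`, `y = (b_1, …, b_m)` (sizes at least two), i.e.
`z = (a_1 + b_m, a_2, …, a_{n-1}, a_n + b_1, b_2, …, b_{m-1})`. -/
def IsSum (x y z : List R) : Prop :=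
  ∃ (a₁ aₙ b₁ bₘ : R) (u v : List R),
    x = a₁ :: (u ++ [aₙ]) ∧ y = b₁ :: (v ++ [bₘ]) ∧ z = (a₁ + bₘ) :: (u ++ (aₙ + b₁) :: v)

/-- `x ∼ y`: `y` is a cyclic rotation of `x` or of the reversed tuple. -/
def Equiv' (x y : List R) : Prop := x.IsRotated y ∨ x.reverse.IsRotated y

/-- A solution of size at least `3` that is reducible: equivalent to a sum of two solutions of size
at least `3`. -/
def IsReducible (z : List R) : Prop :=
  ∃ x y w : List R, IsSolution x ∧ IsSolution y ∧ 3 ≤ x.length ∧ 3 ≤ y.length ∧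
    IsSum x y w ∧ Equiv' z w

/-- Irreducible solutions of size at least `3`. -/
def IsIrreducible (z : List R) : Prop :=
  3 ≤ z.length ∧ IsSolution z ∧ ¬ IsReducible z

end Defs

section General

variable {R : Type} [CommRing R]

lemma Mat_append (l₁ l₂ : List R) : Mat (l₁ ++ l₂) = Mat l₂ * Mat l₁ := by
  induction l₁ with
  | nil => simp [Mat]
  | cons a l ih => simp only [List.cons_append, Mat, ih, Matrix.mul_assoc]

lemma Mat_map {S : Type} [CommRing S] (f : R →+* S) (l : List R) :
    Mat (l.map f) = (Mat l).map f := by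
  induction l with
  | nil => simp [Mat]
  | cons a l ih =>
    simp only [List.map_cons, Mat, ih]
    rw [Matrix.map_mul]
    congr 1
    ext i j
    fin_cases i <;> fin_cases j <;> simp [E]

/-- The alternating list `p, q, p, q, …` of length `k`. -/
def alt (p q : R) : ℕ → List R
  | 0 => []
  | k + 1 => p :: alt q p k

lemma alt_length (p q : R) (k : ℕ) : (alt p q k).length = k := by
  induction k generalizing p q with
  | zero => rfl
  | succ k ih => simp [alt, ih]

lemma alt_map {S : Type} [CommRing S] (f : R →+* S) (p q : R) (k : ℕ) :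
    (alt p q k).map f = alt (f p) (f q) k := by
  induction k generalizing p q with
  | zero => rfl
  | succ k ih => simp [alt, ih]

lemma alt_snoc_even (p q : R) (h : ℕ) : alt p q (2 * h) ++ [p] = alt p q (2 * h + 1) := by
  induction h with
  | zero => rfl
  | succ h ih =>
    have e1 : alt p q (2 * (h + 1)) = p :: q :: alt p q (2 * h) := rfl
    have e2 : alt p q (2 * (h + 1) + 1) = p :: q :: alt p q (2 * h + 1) := rfl
    rw [e1, e2, ← ih]
    rfl

lemma alt_snoc_odd (p q : R) (h : ℕ) : alt p q (2 * h + 1) ++ [q] = alt p q (2 * h + 2) := by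
  have e1 : alt p q (2 * h + 1) = p :: alt q p (2 * h) := rfl
  have e2 : alt p q (2 * h + 2) = p :: alt q p (2 * h + 1) := rfl
  rw [e1, e2, ← alt_snoc_even]
  rfl

lemma alt_reverse (p q : R) (h : ℕ) : (alt p q (2 * h)).reverse = alt q p (2 * h) := by
  induction h with
  | zero => rfl
  | succ h ih =>
    have e1 : alt p q (2 * (h + 1)) = p :: q :: alt p q (2 * h) := rfl
    have e2 : 2 * (h + 1) = 2 * h + 2 := by ring
    rw [e1, List.reverse_cons, List.reverse_cons, ih, alt_snoc_even, alt_snoc_odd, e2]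

lemma alt_rotate_one (p q : R) (h : ℕ) : (alt p q (2 * h)).rotate 1 = alt q p (2 * h) := by
  cases h with
  | zero => rfl
  | succ h =>
    have e1 : alt p q (2 * (h + 1)) = p :: alt q p (2 * h + 1) := rfl
    rw [e1, List.rotate_cons_succ, List.rotate_zero, alt_snoc_odd]
    rfl

lemma alt_rotate (p q : R) (h r : ℕ) :
    (alt p q (2 * h)).rotate r = alt p q (2 * h) ∨ (alt p q (2 * h)).rotate r = alt q p (2 * h) := by
  induction r with
  | zero => left; simp
  | succ r ih =>
    rw [← List.rotate_rotate]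
    rcases ih with ih | ih <;> rw [ih, alt_rotate_one]
    · right; rfl
    · left; rfl

lemma equiv_alt (p q : R) (h : ℕ) {w : List R} (hw : Equiv' (alt p q (2 * h)) w) :
    w = alt p q (2 * h) ∨ w = alt q p (2 * h) := by
  rcases hw with ⟨r, hr⟩ | ⟨r, hr⟩
  · rw [← hr]; exact alt_rotate p q h r
  · rw [← hr, alt_reverse]; exact (alt_rotate q p h r).symm

lemma alt_prefix (u s : List R) (p q : R) (k : ℕ) (h : u ++ s = alt p q k) :
    u = alt p q u.length := by
  induction u generalizing p q k with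
  | nil => rfl
  | cons a u ih =>
    cases k with
    | zero => simp [alt] at h
    | succ k =>
      simp only [alt, List.cons_append, List.cons.injEq] at h
      simp only [List.length_cons, alt]
      rw [h.1, ← ih _ _ _ h.2]

/-- If `(a₁, u, aₙ)` is a solution, the continuant of the inner block is `± 1`. -/
lemma inner_block {a₁ aₙ : R} {u : List R} (h : IsSolution (a₁ :: (u ++ [aₙ]))) :
    Mat u 0 0 = 1 ∨ Mat u 0 0 = -1 := by
  have key : Mat (a₁ :: (u ++ [aₙ])) 1 1 = - Mat u 0 0 := by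
    simp only [Mat, Mat_append, Matrix.one_mul]
    simp [E, Matrix.mul_apply, Fin.sum_univ_two, Matrix.vecMul, dotProduct]
  rcases h with h | h
  · right
    rw [h] at key
    simp only [Matrix.one_apply_eq] at key
    rw [← neg_eq_iff_eq_neg.mpr key]
  · left
    rw [h] at key
    simp only [Matrix.neg_apply, Matrix.one_apply_eq] at key
    exact (neg_injective key).symm

/-- All entries equal to `2`. -/
lemma Mat_two (l : ℕ) : Mat (alt (2 : R) 2 l) = !![(l : R) + 1, -l; l, 1 - l] := by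
  induction l with
  | zero =>
    ext i j
    fin_cases i <;> fin_cases j <;> simp [alt, Mat]
  | succ l ih =>
    simp only [alt, Mat, ih]
    ext i j
    fin_cases i <;> fin_cases j <;> simp [E, Matrix.mul_apply, Fin.sum_univ_two] <;> ring

lemma alt_add_even (p q : R) (h k : ℕ) : alt p q (2 * h + k) = alt p q (2 * h) ++ alt p q k := by
  induction h with
  | zero => simp [alt]
  | succ h ih =>
    have e1 : alt p q (2 * (h + 1)) = p :: q :: alt p q (2 * h) := rfl
    have e2 : alt p q (2 * (h + 1) + k) = p :: q :: alt p q (2 * h + k) := by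
      rw [show 2 * (h + 1) + k = 2 * h + k + 1 + 1 by ring]
      rfl
    rw [e1, e2, ih]
    rfl

end General

lemma mod5_period (p q : ZMod 5) (h6 : Mat (alt p q 6) = 1) (s r : ℕ) :
    Mat (alt p q (6 * s + r)) = Mat (alt p q r) := by
  induction s with
  | zero => simp
  | succ s ih =>
    rw [show 6 * (s + 1) + r = 2 * 3 + (6 * s + r) by ring, alt_add_even, Mat_append,
      show 2 * 3 = 6 by norm_num, h6, Matrix.mul_one, ih]

lemma mod5_one (p q : ZMod 5) (hpq : (p = 2 ∧ q = 3) ∨ (p = 3 ∧ q = 2)) (l : ℕ)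
    (h : Mat (alt p q l) 0 0 = 1) : l % 6 = 0 := by
  have h6 : Mat (alt p q 6) = 1 := by
    rcases hpq with ⟨rfl, rfl⟩ | ⟨rfl, rfl⟩ <;> decide
  rw [← Nat.div_add_mod l 6, mod5_period p q h6] at h
  have hr : l % 6 < 6 := Nat.mod_lt _ (by norm_num)
  generalize l % 6 = r at *
  rcases hpq with ⟨rfl, rfl⟩ | ⟨rfl, rfl⟩ <;> revert h <;> interval_cases r <;> decide

lemma mod5_neg_one (p q : ZMod 5) (hpq : (p = 2 ∧ q = 3) ∨ (p = 3 ∧ q = 2)) (l : ℕ)
    (h : Mat (alt p q l) 0 0 = -1) : l % 6 = 4 := by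
  have h6 : Mat (alt p q 6) = 1 := by
    rcases hpq with ⟨rfl, rfl⟩ | ⟨rfl, rfl⟩ <;> decide
  rw [← Nat.div_add_mod l 6, mod5_period p q h6] at h
  have hr : l % 6 < 6 := Nat.mod_lt _ (by norm_num)
  generalize l % 6 = r at *
  rcases hpq with ⟨rfl, rfl⟩ | ⟨rfl, rfl⟩ <;> revert h <;> interval_cases r <;> decide

section Main

variable (K : ℕ)

/-- `M = 30 K + 1`. -/
def MM : ℕ := 30 * K + 1

/-- The alternating tuple of size `6 M` over `ℤ/5M`. -/
def tuple : List (ZMod (5 * MM K)) := alt 2 (2 + (MM K : ZMod (5 * MM K))) (2 * (3 * MM K))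

/-- reduction modulo `5` -/
def f5 : ZMod (5 * MM K) →+* ZMod 5 := ZMod.castHom (Dvd.intro _ rfl) (ZMod 5)

/-- reduction modulo `M` -/
def fM : ZMod (5 * MM K) →+* ZMod (MM K) := ZMod.castHom (Dvd.intro_left _ rfl) (ZMod (MM K))

lemma f5_y : f5 K (2 + (MM K : ZMod (5 * MM K))) = 3 := by
  rw [map_add, map_natCast, map_ofNat]
  have : ((MM K : ℕ) : ZMod 5) = 1 := by
    unfold MM
    push_cast
    have h30 : (30 : ZMod 5) = 0 := by decide
    rw [h30]; ring
  rw [this]
  decide

lemma fM_y : fM K (2 + (MM K : ZMod (5 * MM K))) = 2 := by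
  rw [map_add, map_natCast, map_ofNat, ZMod.natCast_self, add_zero]

lemma eq_zero_of_maps (x : ZMod (5 * MM K)) (h5 : f5 K x = 0) (hM : fM K x = 0) : x = 0 := by
  have hne : NeZero (5 * MM K) := ⟨by unfold MM; omega⟩
  rw [← ZMod.natCast_zmod_val x] at h5 hM ⊢
  rw [map_natCast] at h5 hM
  rw [ZMod.natCast_eq_zero_iff] at h5 hM ⊢
  apply Nat.Coprime.mul_dvd_of_dvd_of_dvd _ h5 hM
  unfold MM
  rw [Nat.coprime_iff_gcd_eq_one]
  have : Nat.gcd 5 (30 * K + 1) = Nat.gcd 5 1 := by
    rw [show 30 * K + 1 = 1 + 5 * (6 * K) by ring, Nat.gcd_add_mul_left_right]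
  rw [this]
  norm_num

lemma Mat_tuple : Mat (tuple K) = 1 := by
  ext i j
  rw [← sub_eq_zero]
  apply eq_zero_of_maps
  · rw [map_sub]
    have h : f5 K (Mat (tuple K) i j) = Mat ((tuple K).map (f5 K)) i j := by
      rw [Mat_map]; rfl
    rw [h, tuple, alt_map, f5_y, map_ofNat, show 2 * (3 * MM K) = 6 * MM K + 0 by ring,
      mod5_period 2 3 (by decide)]
    by_cases hij : i = j
    · subst hij; simp [alt, Mat]
    · simp [alt, Mat, Matrix.one_apply_ne hij]
  · rw [map_sub]
    have h : fM K (Mat (tuple K) i j) = Mat ((tuple K).map (fM K)) i j := by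
      rw [Mat_map]; rfl
    rw [h, tuple, alt_map, fM_y, map_ofNat, Mat_two]
    have h0 : ((2 * (3 * MM K) : ℕ) : ZMod (MM K)) = 0 := by
      rw [ZMod.natCast_eq_zero_iff]
      exact ⟨6, by ring⟩
    rw [h0]
    fin_cases i <;> fin_cases j <;> simp

lemma tuple_irreducible : IsIrreducible (tuple K) := by
  refine ⟨?_, Or.inl (Mat_tuple K), ?_⟩
  · rw [tuple, alt_length]; unfold MM; omega
  rintro ⟨x, y, w, hx, _, hx3, hy3, ⟨a₁, aₙ, b₁, bₘ, u, v, rfl, rfl, rfl⟩, hw⟩
  have hlen : u.length + v.length + 2 = 2 * (3 * MM K) := by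
    rcases equiv_alt _ _ _ hw with h | h <;>
    · have := congrArg List.length h
      simp only [List.length_cons, List.length_append, alt_length] at this
      omega
  have hu1 : 1 ≤ u.length := by
    simp only [List.length_cons, List.length_append, List.length_nil] at hx3
    omega
  have hv1 : 1 ≤ v.length := by
    simp only [List.length_cons, List.length_append, List.length_nil] at hy3
    omega
  -- the inner block is alternating
  obtain ⟨p, q, hpq, hu⟩ : ∃ p q : ZMod (5 * MM K),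
      ((f5 K p = 2 ∧ f5 K q = 3) ∨ (f5 K p = 3 ∧ f5 K q = 2)) ∧
      (fM K p = 2 ∧ fM K q = 2) ∧ u = alt p q u.length := by
    obtain ⟨k, hk⟩ : ∃ k, 2 * (3 * MM K) = k + 1 := ⟨2 * (3 * MM K) - 1, by unfold MM; omega⟩
    rcases equiv_alt _ _ _ hw with h | h
    · rw [hk] at h
      simp only [alt, List.cons.injEq] at h
      refine ⟨_, _, ?_, ?_, alt_prefix _ _ _ _ _ h.2⟩
      · right
        exact ⟨f5_y K, map_ofNat _ _⟩
      · exact ⟨fM_y K, map_ofNat _ _⟩
    · rw [hk] at h
      simp only [alt, List.cons.injEq] at h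
      refine ⟨_, _, ?_, ?_, alt_prefix _ _ _ _ _ h.2⟩
      · left
        exact ⟨map_ofNat _ _, f5_y K⟩
      · exact ⟨map_ofNat _ _, fM_y K⟩
  obtain ⟨hM2, hu⟩ := hu
  have h5 : f5 K (Mat u 0 0) = Mat (alt (f5 K p) (f5 K q) u.length) 0 0 := by
    rw [← alt_map, ← hu, Mat_map]; rfl
  have hM : fM K (Mat u 0 0) = (u.length : ZMod (MM K)) + 1 := by
    have : fM K (Mat u 0 0) = Mat (alt (fM K p) (fM K q) u.length) 0 0 := by
      rw [← alt_map, ← hu, Mat_map]; rfl
    rw [this, hM2.1, hM2.2, Mat_two]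
    simp
  have hcop : Nat.Coprime 6 (MM K) := by
    unfold MM
    rw [Nat.coprime_iff_gcd_eq_one]
    have : Nat.gcd 6 (30 * K + 1) = Nat.gcd 6 1 := by
      rw [show 30 * K + 1 = 1 + 6 * (5 * K) by ring, Nat.gcd_add_mul_left_right]
    rw [this]
    norm_num
  rcases inner_block hx with h | h
  · rw [h, map_one] at h5 hM
    have h6 : 6 ∣ u.length := Nat.dvd_of_mod_eq_zero (mod5_one _ _ hpq _ h5.symm)
    have hMd : MM K ∣ u.length := by
      rw [← ZMod.natCast_eq_zero_iff]
      linear_combination -hM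
    have hd := Nat.Coprime.mul_dvd_of_dvd_of_dvd hcop h6 hMd
    have := Nat.le_of_dvd (by omega) hd
    omega
  · rw [h, map_neg, map_one] at h5 hM
    have h6 : 6 ∣ u.length + 2 := by
      have := mod5_neg_one _ _ hpq _ h5.symm
      omega
    have hMd : MM K ∣ u.length + 2 := by
      rw [← ZMod.natCast_eq_zero_iff]
      push_cast
      linear_combination -hM
    have hd := Nat.Coprime.mul_dvd_of_dvd_of_dvd hcop h6 hMd
    have := Nat.le_of_dvd (by omega) hd
    omega

end Main

/-- **MP_8835a9_co, Q1 is false.**  For every `K ≥ 1` there are `N ≥ 2` and an irreducible solution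
of `(E_N)` of size at least `N + K` (in fact of size `6 N / 5`). -/
theorem result :
    (∀ K : ℕ, 0 < K → ∃ N : ℕ, 2 ≤ N ∧ ∃ z : List (ZMod N),
      IsIrreducible z ∧ N + K ≤ z.length ∧ 5 * z.length = 6 * N) ∧
    ¬ ∃ K : ℕ, 0 < K ∧ ∀ N : ℕ, 2 ≤ N → ∀ z : List (ZMod N), IsIrreducible z →
      z.length < N + K := by
  have key : ∀ K : ℕ, 0 < K → ∃ N : ℕ, 2 ≤ N ∧ ∃ z : List (ZMod N),
      IsIrreducible z ∧ N + K ≤ z.length ∧ 5 * z.length = 6 * N := by
    intro K hK
    refine ⟨5 * MM K, by unfold MM; omega, tuple K, tuple_irreducible K, ?_, ?_⟩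
    · rw [tuple, alt_length]; unfold MM; omega
    · rw [tuple, alt_length]; ring
  refine ⟨key, ?_⟩
  rintro ⟨K, hK, h⟩
  obtain ⟨N, hN, z, hz, hlen, _⟩ := key K hK
  have := h N hN z hz
  omega

end Pool.Agent.Results.MP_8835a9_co.NoUniformBound
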